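import Pool.Agent.H.MP_e522d8_an.C

namespace Pool.Agent.Results.MP_e522d8_an.TypeB

open Pool.Agent.H.MP_e522d8_an OnePoint

theorem result :
    (¬ ∀ E : Set ℂ, (ConvSetB E ↔ Bdd (VB E))) ∧
      ∃ E : Set ℂ, ConvSetB E ∧ ∞ ∉ VB E ∧ ¬ Bdd (VB E) :=
  ⟨fun h => unb ((h E0).mp conv), E0, conv, fin_val, unb⟩

end Pool.Agent.Results.MP_e522d8_an.TypeB
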